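import Mathlib
import Pool.Agent.H.MP_b18d32_an.D

namespace Pool.Agent.Results.MP_b18d32_an.Exists

open Pool.Agent.H.MP_b18d32_an.Defs

theorem result : ∃ (A : Type) (_ : NonUnitalCStarAlgebra A), ¬ Hered A ∧
    ∀ (D : NonUnitalStarSubalgebra ℂ A) [IsClosed (D : Set A)],
      (∀ x ∈ D, ∀ y ∈ D, x * y = y * x) → Hered D :=
  Pool.Agent.H.MP_b18d32_an.main

end Pool.Agent.Results.MP_b18d32_an.Exists
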